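import Pool.Agent.H564R3.MR.Sets

/-!
Proofs with lines `u(x) + v(y) ≥ 0` (among them all linear inequalities) and a bounded number of
memory cells; resolution; the clique-colouring formulas with layers.
-/

set_option autoImplicit false

namespace Pool.Agent.H564R3.CP

open Pool.Agent.H564R3.PW (Pos pairs Arc var)

/-! ### Clauses and resolution -/

/-- a clause: a finite set of literals (variable, required value) -/
abbrev Clause (V : Type) : Type := Finset (V × Bool)

/-- the clause holds under the assignment -/
def Clause.Holds {V : Type} (c : Clause V) (z : V → Bool) : Prop := ∃ l ∈ c, z l.1 = l.2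

/-- `c` follows from two clauses of `K` by the resolution rule with weakening -/
def ResStep {V : Type} [DecidableEq V] (K : Set (Clause V)) (c : Clause V) : Prop :=
  ∃ A ∈ K, ∃ B ∈ K, ∃ x : V, A ⊆ insert (x, true) c ∧ B ⊆ insert (x, false) c

/-- every clause of the list follows by the resolution rule from clauses of `K` and earlier clauses
of the list -/
def ResChain {V : Type} [DecidableEq V] : Set (Clause V) → List (Clause V) → Prop
  | _, [] => True
  | K, c :: L => ResStep K c ∧ ResChain (insert c K) L

/-! ### Lines and memory -/

/-- The inequality `left x + right y ≥ 0`, where `x`, `y` are the values of the variables of the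
first and of the second group. -/
structure Line (U W : Type) where
  /-- the part which depends on the first group -/
  left : (U → Bool) → ℝ
  /-- the part which depends on the second group -/
  right : (W → Bool) → ℝ

/-- the line holds under the assignment -/
def Line.Holds {U W : Type} (L : Line U W) (z : U ⊕ W → Bool) : Prop :=
  0 ≤ L.left (fun a => z (Sum.inl a)) + L.right (fun b => z (Sum.inr b))

/-- One step of a proof with the memory cells `ρ`. -/
inductive Step (U W ρ : Type) : Type
  /-- cell `i` := `L`, a consequence of the axiom `c` -/
  | axm (i : ρ) (c : Clause (U ⊕ W)) (L : Line U W)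
  /-- cell `i` := `L`, a consequence of the lines in the cells `j` and `l` -/
  | inf (i j l : ρ) (L : Line U W)

section

variable {U W ρ : Type} [DecidableEq ρ]

/-- The new contents of the memory. -/
def Step.run : Step U W ρ → (ρ → Line U W) → ρ → Line U W
  | .axm i _ L, M => Function.update M i L
  | .inf i _ _ L, M => Function.update M i L

/-- The step is sound, given the contents `M` of the memory. -/
def Step.Ok (F : Set (Clause (U ⊕ W))) : Step U W ρ → (ρ → Line U W) → Prop
  | .axm _ c L, _ => c ∈ F ∧ ∀ z, c.Holds z → L.Holds z
  | .inf _ j l L, M => ∀ z, (M j).Holds z → (M l).Holds z → L.Holds z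

/-- All steps are sound, from the contents `M` of the memory on. -/
def Valid (F : Set (Clause (U ⊕ W))) : List (Step U W ρ) → (ρ → Line U W) → Prop
  | [], _ => True
  | s :: p, M => s.Ok F M ∧ Valid F p (s.run M)

/-- The contents of the memory at the end, from the contents `M` on. -/
def final (p : List (Step U W ρ)) (M : ρ → Line U W) : ρ → Line U W :=
  p.foldl (fun M s => s.run M) M

/-- The proof `p` refutes `F`: all steps are sound and at the end cell `o` contains a line which
never holds. At the beginning all cells contain the line `0 + 0 ≥ 0`. -/
def Refutes (F : Set (Clause (U ⊕ W))) (p : List (Step U W ρ)) (o : ρ) : Prop :=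
  Valid F p (fun _ => ⟨fun _ => 0, fun _ => 0⟩) ∧
    ∀ z, ¬ (final p (fun _ => ⟨fun _ => 0, fun _ => 0⟩) o).Holds z

end

/-! ### The formulas -/

/-- The first group of variables. -/
inductive XVar (k n m : ℕ) : Type
  /-- is the arc `a` present? -/
  | arc (a : Arc k n m)
  /-- is candidate `a` chosen at position `v`? -/
  | cho (v : Pos k n) (a : Fin m)
  deriving DecidableEq, Fintype

/-- The second group of variables. -/
inductive YVar (k n m : ℕ) (Q : Type) : Type
  /-- does candidate `a` of position `v` have the colour `c`? -/
  | col (v : Pos k n) (a : Fin m) (c : Q)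
  deriving DecidableEq, Fintype

/-- all variables -/
abbrev Var (k n m : ℕ) (Q : Type) : Type := XVar k n m ⊕ YVar k n m Q

section

variable {k n m : ℕ} {Q : Type}

/-- the variable of an arc -/
def arc (a : Arc k n m) : Var k n m Q := Sum.inl (XVar.arc a)

/-- the variable of a choice -/
def cho (v : Pos k n) (a : Fin m) : Var k n m Q := Sum.inl (XVar.cho v a)

/-- the variable of a colour -/
def col (v : Pos k n) (a : Fin m) (c : Q) : Var k n m Q := Sum.inr (YVar.col v a c)

/-- The clauses: (1) at each position a candidate is chosen, (2) chosen candidates of the two
positions of a pair are adjacent, (3) each candidate has a colour, (4) the colours of adjacent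
candidates satisfy the constraint `C`. -/
inductive Formula [Fintype Q] [DecidableEq Q] (C : Pos k n × Pos k n → Q → Q → Bool) :
    Clause (Var k n m Q) → Prop
  | choose (v : Pos k n) : Formula C (Finset.univ.image fun a => (cho v a, true))
  | adjacent (e : Pos k n × Pos k n) (he : e ∈ pairs k n) (a b : Fin m) :
      Formula C {(cho e.1 a, false), (cho e.2 b, false), (arc ((e.1, a), (e.2, b)), true)}
  | colour (v : Pos k n) (a : Fin m) : Formula C (Finset.univ.image fun c => (col v a c, true))
  | constraint (e : Pos k n × Pos k n) (he : e ∈ pairs k n) (a b : Fin m) (c d : Q)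
      (h : C e c d = false) :
      Formula C {(arc ((e.1, a), (e.2, b)), false), (col e.1 a c, false), (col e.2 b d, false)}

end

end Pool.Agent.H564R3.CP
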