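import Pool.Agent.H564R3.CP.Defs

/-! Derivations in resolution: counting of the steps. -/

set_option autoImplicit false

namespace Pool.Agent.H564R3.CP

section Der

variable {V : Type} [DecidableEq V]

/-- at most `t` resolution steps derive all clauses of `K'` from `K` -/
def Der (K : Set (Clause V)) (t : ℕ) (K' : Set (Clause V)) : Prop :=
  ∃ L : List (Clause V), L.length ≤ t ∧ ResChain K L ∧ K' ⊆ K ∪ {c | c ∈ L}

theorem C_step_mono {K K₂ : Set (Clause V)} (h : K ⊆ K₂) {c : Clause V} (hc : ResStep K c) :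
    ResStep K₂ c := by
  obtain ⟨A, hA, B, hB, x, h1, h2⟩ := hc
  exact ⟨A, h hA, B, h hB, x, h1, h2⟩

theorem C_chain_mono (L : List (Clause V)) : ∀ {K K₂ : Set (Clause V)}, K ⊆ K₂ →
    ResChain K L → ResChain K₂ L := by
  induction L with
  | nil => intro K K₂ _ _; exact trivial
  | cons c L ih =>
    intro K K₂ h hc
    exact ⟨C_step_mono h hc.1, ih (Set.insert_subset_insert h) hc.2⟩

theorem C_chain_append (L L' : List (Clause V)) : ∀ {K : Set (Clause V)}, ResChain K L →
    ResChain (K ∪ {c | c ∈ L}) L' → ResChain K (L ++ L') := by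
  induction L with
  | nil =>
    intro K _ h
    have : K ∪ {c | c ∈ ([] : List (Clause V))} = K := by ext c; simp
    rw [this] at h
    simpa using h
  | cons d L ih =>
    intro K h h'
    refine ⟨h.1, ih h.2 ?_⟩
    have : insert d K ∪ {c | c ∈ L} = K ∪ {c | c ∈ d :: L} := by
      ext c
      simp only [Set.mem_union, Set.mem_insert_iff, Set.mem_setOf_eq, List.mem_cons]
      tauto
    rw [this]
    exact h'

theorem der_zero {K K' : Set (Clause V)} (h : K' ⊆ K) : Der K 0 K' :=
  ⟨[], le_rfl, trivial, fun _ hc => Or.inl (h hc)⟩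

theorem der_one {K : Set (Clause V)} {c : Clause V} (h : ResStep K c) : Der K 1 {c} := by
  refine ⟨[c], le_rfl, ⟨h, trivial⟩, ?_⟩
  intro d hd
  right
  simpa using hd

theorem der_mono {K K₂ K' K'' : Set (Clause V)} {t t₂ : ℕ} (h : Der K t K') (h₁ : K ⊆ K₂)
    (h₂ : t ≤ t₂) (h₃ : K'' ⊆ K') : Der K₂ t₂ K'' := by
  obtain ⟨L, hl, hc, hs⟩ := h
  refine ⟨L, hl.trans h₂, C_chain_mono L h₁ hc, fun c hcc => ?_⟩
  rcases hs (h₃ hcc) with h | h
  · exact Or.inl (h₁ h)
  · exact Or.inr h

theorem der_trans {K K' K'' : Set (Clause V)} {s t : ℕ} (h : Der K s K')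
    (h' : Der (K ∪ K') t K'') : Der K (s + t) (K' ∪ K'') := by
  obtain ⟨L, hl, hc, hs⟩ := h
  obtain ⟨L', hl', hc', hs'⟩ := h'
  have hsub : K ∪ K' ⊆ K ∪ {c | c ∈ L} := Set.union_subset Set.subset_union_left hs
  refine ⟨L ++ L', by rw [List.length_append]; omega,
    C_chain_append L L' hc (C_chain_mono L' hsub hc'), ?_⟩
  intro c hcc
  simp only [Set.mem_union, Set.mem_setOf_eq, List.mem_append]
  rcases hcc with hcc | hcc
  · rcases hs hcc with h | h
    · exact Or.inl h
    · exact Or.inr (Or.inl h)
  · rcases hs' hcc with h | h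
    · rcases hsub h with h | h
      · exact Or.inl h
      · exact Or.inr (Or.inl h)
    · exact Or.inr (Or.inr h)

theorem der_family {ι : Type} (I : Finset ι) {K : Set (Clause V)} {t : ℕ}
    (f : ι → Set (Clause V)) (h : ∀ i ∈ I, Der K t (f i)) :
    Der K (I.card * t) {c | ∃ i ∈ I, c ∈ f i} := by
  classical
  induction I using Finset.induction_on with
  | empty =>
    refine der_mono (der_zero (K := K) (K' := ∅) (Set.empty_subset _)) (le_refl _) (Nat.zero_le _) ?_
    intro c hc
    simp at hc
  | insert i I hi ih =>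
    have h1 := ih (fun j hj => h j (Finset.mem_insert_of_mem hj))
    have h2 : Der (K ∪ {c | ∃ i ∈ I, c ∈ f i}) t (f i) :=
      der_mono (h i (Finset.mem_insert_self _ _)) Set.subset_union_left (le_refl _) (le_refl _)
    refine der_mono (der_trans h1 h2) (le_refl _) ?_ ?_
    · rw [Finset.card_insert_of_notMem hi]
      exact le_of_eq (by ring)
    · rintro c ⟨j, hj, hc⟩
      rcases Finset.mem_insert.1 hj with rfl | hj
      · exact Or.inr hc
      · exact Or.inl ⟨j, hj, hc⟩

theorem C_wide {B : Type} [Fintype B] [DecidableEq B] {K : Set (Clause V)} (y : B → V)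
    (D : Clause V) (hW : (Finset.univ.image fun b => (y b, true)) ∈ K)
    (h : ∀ b : B, ∃ A ∈ K, A ⊆ insert (y b, false) D) (S : Finset B) :
    ∃ L : List (Clause V), L.length ≤ S.card ∧ ResChain K L ∧
      (∃ A ∈ K ∪ {c | c ∈ L}, A ⊆ D ∪ (Finset.univ \ S).image fun b => (y b, true)) ∧
      (S.Nonempty → D ∪ ((Finset.univ \ S).image fun b => (y b, true)) ∈ L) := by
  induction S using Finset.induction_on with
  | empty =>
    refine ⟨[], le_rfl, trivial, ⟨_, Or.inl hW, ?_⟩, fun h => absurd h (by simp)⟩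
    rw [Finset.sdiff_empty]
    exact Finset.subset_union_right
  | insert b S hb ih =>
    obtain ⟨L, hl, hc, ⟨A, hA, hAs⟩, -⟩ := ih
    obtain ⟨A', hA', hAs'⟩ := h b
    set E : Clause V := D ∪ ((Finset.univ \ insert b S).image fun b => (y b, true)) with hE
    refine ⟨L ++ [E], ?_, C_chain_append L [E] hc ⟨⟨A, hA, A', Or.inl hA', y b, ?_, ?_⟩, trivial⟩,
      ⟨E, Or.inr (by simp), le_refl _⟩, fun _ => by simp⟩
    · rw [List.length_append, List.length_singleton, Finset.card_insert_of_notMem hb]
      omega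
    · intro l hlA
      have := hAs hlA
      rw [Finset.mem_union, Finset.mem_image] at this
      rw [Finset.mem_insert, hE, Finset.mem_union, Finset.mem_image]
      rcases this with h | ⟨d, hd, rfl⟩
      · exact Or.inr (Or.inl h)
      · by_cases hdb : d = b
        · left; rw [hdb]
        · right; right
          refine ⟨d, ?_, rfl⟩
          rw [Finset.mem_sdiff] at hd ⊢
          refine ⟨Finset.mem_univ _, ?_⟩
          rw [Finset.mem_insert]
          rintro (h | h)
          · exact hdb h
          · exact hd.2 h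
    · intro l hlA
      have := hAs' hlA
      rw [Finset.mem_insert] at this ⊢
      rcases this with h | h
      · exact Or.inl h
      · exact Or.inr (Finset.mem_union_left _ h)

/-- resolving a wide clause `⋁ y b` away -/
theorem der_wide {B : Type} [Fintype B] [DecidableEq B] [Nonempty B] {K : Set (Clause V)} (y : B → V)
    (D : Clause V) (hW : (Finset.univ.image fun b => (y b, true)) ∈ K)
    (h : ∀ b : B, ∃ A ∈ K, A ⊆ insert (y b, false) D) : Der K (Fintype.card B) {D} := by
  obtain ⟨L, hl, hc, -, hn⟩ := C_wide y D hW h Finset.univ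
  refine ⟨L, hl, hc, ?_⟩
  intro c hcD
  rw [Set.mem_singleton_iff] at hcD
  right
  have := hn Finset.univ_nonempty
  rw [Finset.sdiff_self, Finset.image_empty, Finset.union_empty] at this
  rw [hcD]
  exact this

end Der

end Pool.Agent.H564R3.CP
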