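import Pool.Agent.H564R3.CP.Der

/-! Elimination of a position and of a layer by resolution (helper114). -/

set_option autoImplicit false

namespace Pool.Agent.H564R3.CP

open Pool.Agent.H564R3.PW (Pos pairs Arc var)

section Elim

variable {k n m : ℕ} {Q : Type} [Fintype Q] [DecidableEq Q]

theorem elim_pos [Nonempty Q] (hm : 1 ≤ m) (C : Pos k n × Pos k n → Q → Q → Bool)
    {K : Set (Clause (Var k n m Q))}
    (hK : ∀ c, Formula C c → c ∈ K) (v : Pos k n) (D : Clause (Var k n m Q))
    (h : ∀ (a : Fin m) (c : Q), ∃ A ∈ K, A ⊆ insert (col v a c, false)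
      (insert (cho v a, false) D)) :
    Der K (m * (Fintype.card Q + 1)) {D} := by
  have : Nonempty (Fin m) := ⟨⟨0, hm⟩⟩
  have h1 : ∀ a ∈ (Finset.univ : Finset (Fin m)),
      Der K (Fintype.card Q) ({insert (cho v a, false) D} : Set (Clause (Var k n m Q))) :=
    fun a _ => der_wide (fun c => col v a c) _ (hK _ (Formula.colour v a)) (h a)
  have h2 := der_family Finset.univ _ h1
  have h3 : Der (K ∪ {c | ∃ i ∈ (Finset.univ : Finset (Fin m)),
      c ∈ ({insert (cho v i, false) D} : Set (Clause (Var k n m Q)))}) (Fintype.card (Fin m))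
      {D} := by
    refine der_wide (fun a => cho v a) D (Or.inl (hK _ (Formula.choose v))) fun a => ?_
    exact ⟨insert (cho v a, false) D, Or.inr ⟨a, Finset.mem_univ _, rfl⟩, subset_rfl⟩
  refine der_mono (der_trans h2 h3) subset_rfl (le_of_eq ?_) Set.subset_union_right
  rw [Finset.card_univ, Fintype.card_fin]
  ring

/-- the negations of the choices `a` and of the colours `c` in layer `l` -/
def lay (l : Fin n) (a : Fin k → Fin m) (c : Fin k → Q) : Clause (Var k n m Q) :=
  (Finset.univ.image fun j => (cho (j, l) (a j), false)) ∪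
    (Finset.univ.image fun j => (col (j, l) (a j) (c j), false))

/-- the literals of the positions in `S` -/
def d_layS (l : Fin n) (S : Finset (Fin k)) (a : Fin k → Fin m) (c : Fin k → Q) :
    Clause (Var k n m Q) :=
  (S.image fun j => (cho (j, l) (a j), false)) ∪
    (S.image fun j => (col (j, l) (a j) (c j), false))

theorem d_stage [Nonempty Q] (hm : 1 ≤ m)
    (C : Pos k n × Pos k n → Q → Q → Bool) {K : Set (Clause (Var k n m Q))}
    (hK : ∀ c, Formula C c → c ∈ K) (l : Fin n) (D : Clause (Var k n m Q))
    (h : ∀ (a : Fin k → Fin m) (c : Fin k → Q), ∃ A ∈ K, A ⊆ lay l a c ∪ D)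
    (R : Finset (Fin k)) : ∃ K' : Set (Clause (Var k n m Q)),
      Der K (R.card * ((m * Fintype.card Q) ^ k * (m * (Fintype.card Q + 1)))) K' ∧
      (∀ a c, ∃ A ∈ K ∪ K', A ⊆ d_layS l (Finset.univ \ R) a c ∪ D) ∧
      (R.Nonempty → ∀ a c, d_layS l (Finset.univ \ R) a c ∪ D ∈ K') := by
  induction R using Finset.induction_on with
  | empty =>
    refine ⟨∅, ?_, fun a c => ?_, fun h => absurd h Finset.not_nonempty_empty⟩
    · rw [Finset.card_empty, zero_mul]
      exact der_zero (Set.empty_subset _)
    · obtain ⟨A, hA, hA'⟩ := h a c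
      refine ⟨A, Or.inl hA, ?_⟩
      rw [Finset.sdiff_empty]
      exact hA'
  | insert j R hj ih =>
    obtain ⟨K', hK', hA, _⟩ := ih
    have h1 : ∀ p ∈ (Finset.univ : Finset ((Fin k → Fin m) × (Fin k → Q))),
        Der (K ∪ K') (m * (Fintype.card Q + 1))
          ({d_layS l (Finset.univ \ insert j R) p.1 p.2 ∪ D} : Set (Clause (Var k n m Q))) := by
      intro p _
      refine elim_pos hm C (fun c hc => Or.inl (hK c hc)) (j, l) _ fun a' c' => ?_
      obtain ⟨A, hAK, hAs⟩ := hA (Function.update p.1 j a') (Function.update p.2 j c')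
      refine ⟨A, hAK, hAs.trans ?_⟩
      intro x hx
      rw [Finset.mem_union] at hx
      rcases hx with hx | hx
      · unfold d_layS at hx
        rw [Finset.mem_union, Finset.mem_image, Finset.mem_image] at hx
        have hmem : ∀ i, i ∈ Finset.univ \ R → i ≠ j → i ∈ Finset.univ \ insert j R := by
          intro i hi hne
          simp only [Finset.mem_sdiff, Finset.mem_univ, true_and, Finset.mem_insert, not_or]
            at hi ⊢
          exact ⟨hne, hi⟩
        rcases hx with ⟨i, hi, hix⟩ | ⟨i, hi, hix⟩
        · by_cases hij : i = j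
          · subst hij
            rw [Function.update_self] at hix
            rw [← hix]
            exact Finset.mem_insert_of_mem (Finset.mem_insert_self _ _)
          · rw [Function.update_of_ne hij] at hix
            refine Finset.mem_insert_of_mem (Finset.mem_insert_of_mem ?_)
            refine Finset.mem_union_left _ (Finset.mem_union_left _ ?_)
            exact Finset.mem_image.2 ⟨i, hmem i hi hij, hix⟩
        · by_cases hij : i = j
          · subst hij
            rw [Function.update_self, Function.update_self] at hix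
            rw [← hix]
            exact Finset.mem_insert_self _ _
          · rw [Function.update_of_ne hij, Function.update_of_ne hij] at hix
            refine Finset.mem_insert_of_mem (Finset.mem_insert_of_mem ?_)
            refine Finset.mem_union_left _ (Finset.mem_union_right _ ?_)
            exact Finset.mem_image.2 ⟨i, hmem i hi hij, hix⟩
      · exact Finset.mem_insert_of_mem (Finset.mem_insert_of_mem (Finset.mem_union_right _ hx))
    have h2 := der_family Finset.univ _ h1
    refine ⟨_, der_mono (der_trans hK' h2) subset_rfl (le_of_eq ?_) subset_rfl, ?_, ?_⟩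
    · rw [Finset.card_insert_of_notMem hj, Finset.card_univ, Fintype.card_prod, Fintype.card_fun,
        Fintype.card_fun, Fintype.card_fin, Fintype.card_fin, mul_pow]
      ring
    · intro a c
      exact ⟨_, Or.inr (Or.inr ⟨(a, c), Finset.mem_univ _, rfl⟩), subset_rfl⟩
    · intro _ a c
      exact Or.inr ⟨(a, c), Finset.mem_univ _, rfl⟩

theorem elim_layer [Nonempty Q] (hk : 1 ≤ k) (hm : 1 ≤ m)
    (C : Pos k n × Pos k n → Q → Q → Bool) {K : Set (Clause (Var k n m Q))}
    (hK : ∀ c, Formula C c → c ∈ K) (l : Fin n) (D : Clause (Var k n m Q))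
    (h : ∀ (a : Fin k → Fin m) (c : Fin k → Q), ∃ A ∈ K, A ⊆ lay l a c ∪ D) :
    Der K (k * ((m * Fintype.card Q) ^ k * (m * (Fintype.card Q + 1)))) {D} := by
  obtain ⟨K', hK', _, hD⟩ := d_stage hm C hK l D h Finset.univ
  rw [Finset.card_univ, Fintype.card_fin] at hK'
  refine der_mono hK' subset_rfl le_rfl ?_
  rintro x rfl
  have h1 := hD ⟨⟨0, hk⟩, Finset.mem_univ _⟩ (fun _ => ⟨0, hm⟩) (fun _ => Classical.arbitrary Q)
  rw [Finset.sdiff_self] at h1
  have h2 : d_layS l (∅ : Finset (Fin k)) (fun _ => (⟨0, hm⟩ : Fin m))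
      (fun _ => Classical.arbitrary Q) = (∅ : Clause (Var k n m Q)) := by
    unfold d_layS
    rw [Finset.image_empty, Finset.image_empty, Finset.empty_union]
  rw [h2, Finset.empty_union] at h1
  exact h1

end Elim

end Pool.Agent.H564R3.CP
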