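import Pool.Agent.H564R3.CP.Defs

/-! Interpolation: from proofs with lines to monotone real programs (helper114). -/

set_option autoImplicit false

namespace Pool.Agent.H564R3.CP

open Pool.Agent.H564R3.PW (Pos pairs Arc var)
open Pool.Agent.H564R3.MR (Csp wpos wneg)

namespace IntB

/-! ### Minima -/

section minR

variable {W : Type}

/-- minimum of `g` over `S`, or `B` if `S` is empty -/
noncomputable def minR (S : Finset W) (g : W → ℝ) (B : ℝ) : ℝ :=
  if h : S.Nonempty then S.inf' h g else B

theorem minR_le {S : Finset W} {g : W → ℝ} {B : ℝ} {z : W} (hz : z ∈ S) : minR S g B ≤ g z := by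
  unfold minR
  rw [dif_pos ⟨z, hz⟩]
  exact Finset.inf'_le g hz

theorem le_minR {S : Finset W} {g : W → ℝ} {B a : ℝ} (h : ∀ z ∈ S, a ≤ g z) (hB : a ≤ B) :
    a ≤ minR S g B := by
  unfold minR
  split_ifs with hS
  · exact Finset.le_inf' hS g h
  · exact hB

theorem minR_anti {S S' : Finset W} {g : W → ℝ} {B : ℝ} (h : S ⊆ S') (hB : ∀ z, g z ≤ B) :
    minR S' g B ≤ minR S g B := by
  refine le_minR (fun z hz => minR_le (h hz)) ?_
  unfold minR
  split_ifs with hS
  · obtain ⟨z, hz⟩ := hS
    exact (Finset.inf'_le g hz).trans (hB z)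
  · exact le_rfl

end minR

section bound

variable {U W : Type} [Fintype U] [DecidableEq U] [Fintype W] [DecidableEq W]

/-- a bound for the values of a line -/
noncomputable def bd (L : Line U W) : ℝ := ∑ z, |L.left z| + ∑ z, |L.right z|

theorem left_le (L : Line U W) (z : U → Bool) : - L.left z ≤ bd L := by
  have h1 : |L.left z| ≤ ∑ z, |L.left z| :=
    Finset.single_le_sum (f := fun z => |L.left z|) (fun _ _ => abs_nonneg _) (Finset.mem_univ z)
  have h2 : 0 ≤ ∑ z, |L.right z| := Finset.sum_nonneg fun _ _ => abs_nonneg _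
  unfold bd
  linarith [neg_abs_le (L.left z)]

theorem right_le (L : Line U W) (z : W → Bool) : L.right z ≤ bd L := by
  have h1 : |L.right z| ≤ ∑ z, |L.right z| :=
    Finset.single_le_sum (f := fun z => |L.right z|) (fun _ _ => abs_nonneg _) (Finset.mem_univ z)
  have h2 : 0 ≤ ∑ z, |L.left z| := Finset.sum_nonneg fun _ _ => abs_nonneg _
  unfold bd
  linarith [le_abs_self (L.right z)]

/-- the minimum used by the translation -/
noncomputable def mn (S : Finset (W → Bool)) (L : Line U W) : ℝ := minR S L.right (bd L)

theorem mn_le {S : Finset (W → Bool)} {L : Line U W} {z : W → Bool} (hz : z ∈ S) :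
    mn S L ≤ L.right z := minR_le hz

theorem mn_anti {S S' : Finset (W → Bool)} {L : Line U W} (h : S ⊆ S') : mn S' L ≤ mn S L :=
  minR_anti h (right_le L)

theorem le_mn {S : Finset (W → Bool)} {L : Line U W} {q : U → Bool}
    (h : ∀ z ∈ S, 0 ≤ L.left q + L.right z) : - mn S L ≤ L.left q := by
  have : - L.left q ≤ mn S L := le_minR (fun z hz => by linarith [h z hz]) (left_le L q)
  linarith

end bound

section main

variable {k n m : ℕ} {Q ρ : Type} [Fintype Q] [DecidableEq Q] [DecidableEq ρ]

/-- the values of the first group for a choice -/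
def qx (x : Pos k n → Fin m) : XVar k n m → Bool
  | .arc a => wpos x a
  | .cho v a => decide (x v = a)

/-- the values of the second group for a colouring -/
def ry (y : Pos k n → Fin m → Q) : YVar k n m Q → Bool
  | .col v a c => decide (y v a = c)

/-- both groups -/
def zz (x : Pos k n → Fin m) (z : YVar k n m Q → Bool) : Var k n m Q → Bool :=
  Sum.elim (qx x) z

omit [Fintype Q] [DecidableEq Q] in
theorem holds_zz {L : Line (XVar k n m) (YVar k n m Q)} {x : Pos k n → Fin m}
    {z : YVar k n m Q → Bool} (h : L.Holds (zz x z)) : 0 ≤ L.left (qx x) + L.right z := h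

omit [Fintype Q] [DecidableEq Q] in
theorem holds_zz' {L : Line (XVar k n m) (YVar k n m Q)} {x : Pos k n → Fin m}
    {z : YVar k n m Q → Bool} (h : 0 ≤ L.left (qx x) + L.right z) : L.Holds (zz x z) := h

/-- `p'` translates the change of the memory from `M` to `N` -/
structure Tr (C : Pos k n × Pos k n → Q → Q → Bool) (p' : List (MR.Instr (Arc k n m) (Option ρ)))
    (M N : ρ → Line (XVar k n m) (YVar k n m Q)) : Prop where
  mono : MR.IsMono p'
  left : ∀ (x : Pos k n → Fin m) (V : Option ρ → ℝ), (∀ i, - V (some i) ≤ (M i).left (qx x)) →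
    ∀ i, - (p'.foldl (fun v I => I.run (wpos x) v) V) (some i) ≤ (N i).left (qx x)
  right : ∀ (y : Pos k n → Fin m → Q) (V : Option ρ → ℝ), (∀ i, V (some i) ≤ (M i).right (ry y)) →
    ∀ i, (p'.foldl (fun v I => I.run (wneg C y) v) V) (some i) ≤ (N i).right (ry y)

omit [Fintype Q] in
theorem Tr.append {C : Pos k n × Pos k n → Q → Q → Bool}
    {p₁ p₂ : List (MR.Instr (Arc k n m) (Option ρ))}
    {M N O : ρ → Line (XVar k n m) (YVar k n m Q)} (h₁ : Tr C p₁ M N) (h₂ : Tr C p₂ N O) :
    Tr C (p₁ ++ p₂) M O where
  mono := by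
    intro i f j l h
    rcases List.mem_append.1 h with h | h
    · exact h₁.mono i f j l h
    · exact h₂.mono i f j l h
  left x V hV := by
    rw [List.foldl_append]
    exact h₂.left x _ (h₁.left x V hV)
  right y V hV := by
    rw [List.foldl_append]
    exact h₂.right y _ (h₁.right y V hV)

/-- one application of a monotone function -/
theorem tr_app {C : Pos k n × Pos k n → Q → Q → Bool}
    {M : ρ → Line (XVar k n m) (YVar k n m Q)} (i j l : ρ)
    (L : Line (XVar k n m) (YVar k n m Q))
    (h : ∀ z, (M j).Holds z → (M l).Holds z → L.Holds z) :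
    ∃ p', p'.length ≤ 2 ∧ Tr C p' M (Function.update M i L) := by
  classical
  set f : ℝ → ℝ → ℝ := fun d₁ d₂ =>
    mn (Finset.univ.filter fun z => d₁ ≤ (M j).right z ∧ d₂ ≤ (M l).right z) L with hf
  refine ⟨[.app (some i) f (some j) (some l)], by simp, ?_, ?_, ?_⟩
  · intro i' f' j' l' hmem a a' b b' ha hb
    rw [List.mem_singleton] at hmem
    injection hmem with _ h2 _ _
    rw [h2]
    refine mn_anti fun z hz => ?_
    rw [Finset.mem_filter] at hz ⊢
    exact ⟨hz.1, ha.trans hz.2.1, hb.trans hz.2.2⟩
  · intro x V hV i'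
    simp only [List.foldl_cons, List.foldl_nil, MR.Instr.run]
    by_cases hi : i' = i
    · subst hi
      rw [Function.update_self, Function.update_self]
      refine le_mn fun z hz => ?_
      rw [Finset.mem_filter] at hz
      refine holds_zz (h _ (holds_zz' ?_) (holds_zz' ?_))
      · linarith [hz.2.1, hV j]
      · linarith [hz.2.2, hV l]
    · rw [Function.update_of_ne hi, Function.update_of_ne (by simpa using hi)]
      exact hV i'
  · intro y V hV i'
    simp only [List.foldl_cons, List.foldl_nil, MR.Instr.run]
    by_cases hi : i' = i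
    · subst hi
      rw [Function.update_self, Function.update_self]
      refine mn_le ?_
      rw [Finset.mem_filter]
      exact ⟨Finset.mem_univ _, hV j, hV l⟩
    · rw [Function.update_of_ne hi, Function.update_of_ne (by simpa using hi)]
      exact hV i'

/-- a constant -/
theorem tr_const {C : Pos k n × Pos k n → Q → Q → Bool}
    {M : ρ → Line (XVar k n m) (YVar k n m Q)} (i : ρ)
    (L : Line (XVar k n m) (YVar k n m Q)) (S : Finset (YVar k n m Q → Bool))
    (h₁ : ∀ (x : Pos k n → Fin m), ∀ z ∈ S, L.Holds (zz x z))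
    (h₂ : ∀ y : Pos k n → Fin m → Q, ry y ∈ S) :
    ∃ p', p'.length ≤ 2 ∧ Tr C p' M (Function.update M i L) := by
  refine ⟨[.app (some i) (fun _ _ => mn S L) none none], by simp, ?_, ?_, ?_⟩
  · intro i' f' j' l' hmem a a' b b' ha hb
    rw [List.mem_singleton] at hmem
    injection hmem with _ h2 _ _
    rw [h2]
  · intro x V hV i'
    simp only [List.foldl_cons, List.foldl_nil, MR.Instr.run]
    by_cases hi : i' = i
    · subst hi
      rw [Function.update_self, Function.update_self]
      exact le_mn fun z hz => holds_zz (h₁ x z hz)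
    · rw [Function.update_of_ne hi, Function.update_of_ne (by simpa using hi)]
      exact hV i'
  · intro y V hV i'
    simp only [List.foldl_cons, List.foldl_nil, MR.Instr.run]
    by_cases hi : i' = i
    · subst hi
      rw [Function.update_self, Function.update_self]
      exact mn_le (h₂ y)
    · rw [Function.update_of_ne hi, Function.update_of_ne (by simpa using hi)]
      exact hV i'

/-- a constant which depends on one input bit -/
theorem tr_load {C : Pos k n × Pos k n → Q → Q → Bool}
    {M : ρ → Line (XVar k n m) (YVar k n m Q)} (i : ρ)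
    (L : Line (XVar k n m) (YVar k n m Q)) (a : Arc k n m) (S : Finset (YVar k n m Q → Bool))
    (h₁ : ∀ (x : Pos k n → Fin m), ∀ z, (wpos x a = true → z ∈ S) → L.Holds (zz x z))
    (h₂ : ∀ y : Pos k n → Fin m → Q, wneg C y a = true → ry y ∈ S) :
    ∃ p', p'.length ≤ 2 ∧ Tr C p' M (Function.update M i L) := by
  set f : ℝ → ℝ → ℝ := fun t _ => if 1 ≤ t then mn S L else mn Finset.univ L with hf
  have h01 : ¬ (1 : ℝ) ≤ 0 := by norm_num
  refine ⟨[.load none a, .app (some i) f none none], by simp, ?_, ?_, ?_⟩
  · intro i' f' j' l' hmem b b' c c' hb hc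
    simp only [List.mem_cons, reduceCtorEq, List.not_mem_nil, or_false, false_or] at hmem
    injection hmem with _ h2 _ _
    rw [h2]
    simp only [hf]
    by_cases h3 : 1 ≤ b
    · rw [if_pos h3, if_pos (h3.trans hb)]
    · rw [if_neg h3]
      split_ifs
      · exact mn_anti (Finset.subset_univ _)
      · exact le_rfl
  · intro x V hV i'
    simp only [List.foldl_cons, List.foldl_nil, MR.Instr.run]
    by_cases hi : i' = i
    · subst hi
      rw [Function.update_self, Function.update_self, Function.update_self]
      simp only [hf]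
      by_cases hw : wpos x a = true
      · rw [if_pos hw, if_pos le_rfl]
        exact le_mn fun z hz => holds_zz (h₁ x z fun _ => hz)
      · rw [if_neg hw, if_neg h01]
        exact le_mn fun z _ => holds_zz (h₁ x z fun h => absurd h hw)
    · rw [Function.update_of_ne hi, Function.update_of_ne (by simpa using hi),
        Function.update_of_ne (by simp)]
      exact hV i'
  · intro y V hV i'
    simp only [List.foldl_cons, List.foldl_nil, MR.Instr.run]
    by_cases hi : i' = i
    · subst hi
      rw [Function.update_self, Function.update_self, Function.update_self]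
      simp only [hf]
      by_cases hw : wneg C y a = true
      · rw [if_pos hw, if_pos le_rfl]
        exact mn_le (h₂ y hw)
      · rw [if_neg hw, if_neg h01]
        exact mn_le (Finset.mem_univ _)
    · rw [Function.update_of_ne hi, Function.update_of_ne (by simpa using hi),
        Function.update_of_ne (by simp)]
      exact hV i'

/-- one step -/
theorem tr_step {C : Pos k n × Pos k n → Q → Q → Bool}
    {M : ρ → Line (XVar k n m) (YVar k n m Q)} (s : Step (XVar k n m) (YVar k n m Q) ρ)
    (h : s.Ok {c | Formula C c} M) : ∃ p', p'.length ≤ 2 ∧ Tr C p' M (s.run M) := by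
  cases s with
  | inf i j l L => exact tr_app i j l L h
  | axm i c L =>
    obtain ⟨hc, hL⟩ := h
    simp only [Step.run]
    simp only [Set.mem_ofPred_eq] at hc
    cases hc with
    | choose v =>
      refine tr_const i L Finset.univ (fun x z _ => hL _ ?_) (fun y => Finset.mem_univ _)
      refine ⟨(cho v (x v), true), Finset.mem_image.2 ⟨x v, Finset.mem_univ _, rfl⟩, ?_⟩
      simp [zz, cho, qx]
    | adjacent e he a b =>
      refine tr_const i L Finset.univ (fun x z _ => hL _ ?_) (fun y => Finset.mem_univ _)
      by_cases h1 : x e.1 = a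
      · by_cases h2 : x e.2 = b
        · refine ⟨(arc ((e.1, a), (e.2, b)), true), by simp, ?_⟩
          simp [zz, arc, qx, wpos, h1, h2]
        · refine ⟨(cho e.2 b, false), by simp, ?_⟩
          simp [zz, cho, qx, h2]
      · refine ⟨(cho e.1 a, false), by simp, ?_⟩
        simp [zz, cho, qx, h1]
    | colour v a =>
      refine tr_const i L (Finset.univ.filter fun z => ∃ c, z (YVar.col v a c) = true)
        (fun x z hz => hL _ ?_) (fun y => ?_)
      · rw [Finset.mem_filter] at hz
        obtain ⟨c, hc⟩ := hz.2
        exact ⟨(col v a c, true), Finset.mem_image.2 ⟨c, Finset.mem_univ _, rfl⟩, hc⟩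
      · rw [Finset.mem_filter]
        exact ⟨Finset.mem_univ _, y v a, by simp [ry]⟩
    | constraint e he a b c d h =>
      refine tr_load i L ((e.1, a), (e.2, b))
        (Finset.univ.filter fun z => z (YVar.col e.1 a c) = false ∨ z (YVar.col e.2 b d) = false)
        (fun x z hz => hL _ ?_) (fun y hy => ?_)
      · by_cases hw : wpos x ((e.1, a), (e.2, b)) = true
        · have h1 := hz hw
          rw [Finset.mem_filter] at h1
          rcases h1.2 with h2 | h2
          · exact ⟨(col e.1 a c, false), by simp, h2⟩
          · exact ⟨(col e.2 b d, false), by simp, h2⟩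
        · refine ⟨(arc ((e.1, a), (e.2, b)), false), by simp, ?_⟩
          simpa [zz, arc, qx] using hw
      · rw [Finset.mem_filter]
        refine ⟨Finset.mem_univ _, ?_⟩
        by_contra hcon
        push Not at hcon
        obtain ⟨h1, h2⟩ := hcon
        simp only [ry, ne_eq, Bool.not_eq_false, decide_eq_true_eq] at h1 h2
        simp only [wneg] at hy
        rw [if_pos he, h1, h2] at hy
        have hy' : C e c d = true := hy
        rw [h] at hy'
        exact Bool.noConfusion hy'

theorem tr_all {C : Pos k n × Pos k n → Q → Q → Bool}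
    (p : List (Step (XVar k n m) (YVar k n m Q) ρ)) :
    ∀ M : ρ → Line (XVar k n m) (YVar k n m Q), Valid {c | Formula C c} p M →
      ∃ p', p'.length ≤ 2 * p.length ∧ Tr C p' M (final p M) := by
  induction p with
  | nil =>
    intro M _
    refine ⟨[], by simp, ?_, ?_, ?_⟩
    · intro i f j l h
      exact absurd h List.not_mem_nil
    · intro x V hV
      exact hV
    · intro y V hV
      exact hV
  | cons s p ih =>
    intro M hM
    obtain ⟨p₁, hp₁, h₁⟩ := tr_step s hM.1
    obtain ⟨p₂, hp₂, h₂⟩ := ih _ hM.2
    refine ⟨p₁ ++ p₂, ?_, h₁.append h₂⟩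
    rw [List.length_append, List.length_cons]
    omega

end main

end IntB

theorem interp {k n m : ℕ} {Q ρ : Type} [Fintype Q] [DecidableEq Q] [DecidableEq ρ]
    (C : Pos k n × Pos k n → Q → Q → Bool)
    (p : List (Step (XVar k n m) (YVar k n m Q) ρ)) (o : ρ)
    (h : Refutes {c | Formula C c} p o) :
    ∃ p' : List (MR.Instr (Arc k n m) (Option ρ)), MR.IsMono p' ∧
      (∀ (x : Pos k n → Fin m) (y : Pos k n → Fin m → Q),
        MR.exec (wneg C y) p' (some o) < MR.exec (wpos x) p' (some o)) ∧
      p'.length ≤ 2 * p.length := by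
  obtain ⟨hv, hf⟩ := h
  obtain ⟨p', hp', ht⟩ := IntB.tr_all p _ hv
  refine ⟨p', ht.mono, fun x y => ?_, hp'⟩
  have h1 := ht.left x (fun _ => 0) (fun i => by simp) o
  have h2 := ht.right y (fun _ => 0) (fun i => le_rfl) o
  have h3 := hf (IntB.zz x (IntB.ry y))
  have h4 : ¬ 0 ≤ (final p (fun _ => ⟨fun _ => 0, fun _ => 0⟩) o).left (IntB.qx x) +
      (final p (fun _ => ⟨fun _ => 0, fun _ => 0⟩) o).right (IntB.ry y) := h3
  unfold MR.exec
  linarith [not_le.1 h4]

end Pool.Agent.H564R3.CP
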