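import Mathlib

/-! Task F: the numerical inequalities. -/

namespace Pool.Agent.H564R3.CP

theorem num_cp (c g n K : ℕ) (hn : 1 ≤ n) : ∃ m₀ : ℕ, ∀ m ≥ m₀, ∀ N k : ℕ, k = 3 * c + 3 →
    N = (k * n * m) ^ 2 + k * n * m + k * n * m * K →
      (n + 1) * (((m * K) ^ k + 1) * ((m * K) ^ k + 1 + k * ((m * K) ^ k * (m * (K + 1))))) ≤
        N ^ (3 * c + 4) ∧
      (∀ T : ℕ, T ≤ N ^ g → 2 * T ≤ m ^ (3 * g + 1)) ∧
      (∀ S : ℕ, m ^ (k * (3 * g + 1)) ≤ m * (S + 1) ^ (3 * g + 1) → N ^ c < S) := by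
  obtain ⟨M1, hM1⟩ : ∃ M : ℕ, M = (n + 1) * ((K ^ (3 * c + 3) + 1) * (K ^ (3 * c + 3) + 1 +
    (3 * c + 3) * (K ^ (3 * c + 3) * (K + 1)))) := ⟨_, rfl⟩
  obtain ⟨M2, hM2⟩ : ∃ M : ℕ, M = ((3 * c + 3) * n) ^ 2 + (3 * c + 3) * n + (3 * c + 3) * n * K :=
    ⟨_, rfl⟩
  refine ⟨M1 + M2 + 2, ?_⟩
  intro m hm N k hk hN
  rw [← hk] at hM1 hM2
  have hm2 : 2 ≤ m := by omega
  have hm1 : 1 ≤ m := by omega
  have hk1 : 1 ≤ k := by omega
  have hNlow : m ^ 2 ≤ N := by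
    have h1 : m ≤ k * n * m := Nat.le_mul_of_pos_left m (Nat.mul_pos hk1 hn)
    have h2 : m ^ 2 ≤ (k * n * m) ^ 2 := Nat.pow_le_pow_left h1 2
    omega
  have hNup : N ≤ m ^ 3 := by
    have h1 : k * n * m ≤ k * n * m ^ 2 := by
      apply Nat.mul_le_mul_left
      calc m = m ^ 1 := (pow_one m).symm
        _ ≤ m ^ 2 := Nat.pow_le_pow_right hm1 (by omega)
    have h2 : k * n * m * K ≤ k * n * m ^ 2 * K := Nat.mul_le_mul_right _ h1
    calc N ≤ (k * n) ^ 2 * m ^ 2 + k * n * m ^ 2 + k * n * m ^ 2 * K := by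
          rw [hN, mul_pow]; omega
      _ = M2 * m ^ 2 := by rw [hM2]; ring
      _ ≤ m * m ^ 2 := Nat.mul_le_mul_right _ (by omega)
      _ = m ^ 3 := by ring
  refine ⟨?_, ?_, ?_⟩
  · have hmk : 1 ≤ m ^ k := Nat.one_le_pow _ _ hm1
    have a1 : (m * K) ^ k + 1 ≤ m ^ k * (K ^ k + 1) := by
      rw [mul_pow, mul_add, mul_one]; omega
    have a2 : (m * K) ^ k + 1 + k * ((m * K) ^ k * (m * (K + 1))) ≤
        m ^ (k + 1) * (K ^ k + 1 + k * (K ^ k * (K + 1))) := by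
      have b1 : (m * K) ^ k + 1 ≤ m ^ (k + 1) * (K ^ k + 1) :=
        a1.trans (Nat.mul_le_mul_right _ (Nat.pow_le_pow_right hm1 (by omega)))
      calc (m * K) ^ k + 1 + k * ((m * K) ^ k * (m * (K + 1))) ≤
          m ^ (k + 1) * (K ^ k + 1) + k * ((m * K) ^ k * (m * (K + 1))) := by omega
        _ = m ^ (k + 1) * (K ^ k + 1 + k * (K ^ k * (K + 1))) := by
            rw [mul_pow, pow_succ]; ring
    calc (n + 1) * (((m * K) ^ k + 1) * ((m * K) ^ k + 1 + k * ((m * K) ^ k * (m * (K + 1)))))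
        ≤ (n + 1) * ((m ^ k * (K ^ k + 1)) * (m ^ (k + 1) * (K ^ k + 1 + k * (K ^ k * (K + 1))))) :=
          Nat.mul_le_mul_left _ (Nat.mul_le_mul a1 a2)
      _ = M1 * (m ^ k * m ^ (k + 1)) := by rw [hM1]; ring
      _ ≤ m * (m ^ k * m ^ (k + 1)) := Nat.mul_le_mul_right _ (by omega)
      _ = (m ^ 2) ^ (k + 1) := by rw [← pow_mul]; ring
      _ ≤ N ^ (k + 1) := Nat.pow_le_pow_left hNlow _
      _ = N ^ (3 * c + 4) := by rw [hk]
  · intro T hT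
    have h1 : N ^ g ≤ m ^ (3 * g) := by
      rw [pow_mul]; exact Nat.pow_le_pow_left hNup g
    calc 2 * T ≤ m * m ^ (3 * g) := Nat.mul_le_mul hm2 (hT.trans h1)
      _ = m ^ (3 * g + 1) := by ring
  · intro S hS
    by_contra hc
    push Not at hc
    have h1 : N ^ c ≤ m ^ (3 * c) := by
      rw [pow_mul]; exact Nat.pow_le_pow_left hNup c
    have h0 : 1 ≤ m ^ (3 * c) := Nat.one_le_pow _ _ hm1
    have h2 : S + 1 ≤ m ^ (3 * c + 1) := by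
      calc S + 1 ≤ m ^ (3 * c) + m ^ (3 * c) := by omega
        _ = 2 * m ^ (3 * c) := by ring
        _ ≤ m * m ^ (3 * c) := Nat.mul_le_mul_right _ hm2
        _ = m ^ (3 * c + 1) := by ring
    have h3 : m * (S + 1) ^ (3 * g + 1) ≤ m ^ ((3 * c + 1) * (3 * g + 1) + 1) := by
      calc m * (S + 1) ^ (3 * g + 1) ≤ m * (m ^ (3 * c + 1)) ^ (3 * g + 1) :=
            Nat.mul_le_mul_left _ (Nat.pow_le_pow_left h2 _)
        _ = m ^ ((3 * c + 1) * (3 * g + 1) + 1) := by rw [← pow_mul]; ring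
    have h4 : m ^ ((3 * c + 1) * (3 * g + 1) + 1) < m ^ (k * (3 * g + 1)) := by
      apply Nat.pow_lt_pow_right (by omega)
      rw [hk]; nlinarith
    omega

end Pool.Agent.H564R3.CP
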