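import Pool.Agent.H564R3.CP.Defs
import Pool.Agent.H564R3.MR.Main
import Pool.Agent.H564R3.MR.Num

/-! The lower bound for programs which only separate the test inputs. -/

set_option autoImplicit false
set_option linter.unusedSectionVars false

namespace Pool.Agent.H564R3.MR

open Finset
open Pool.Agent.H564R3.PW (Pos pairs Arc var Inc Bd un Priv iso)

theorem main_sep {k n m : ℕ} {ρ : Type} [Fintype ρ] [DecidableEq ρ] {Q : Type} [Fintype Q]
    [DecidableEq Q] (C : Pos k n × Pos k n → Q → Q → Bool) (hC : Csp C) (hk : 1 ≤ k)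
    (hm : 1 ≤ m) (p : List (Instr (Arc k n m) ρ)) (hp : IsMono p) (o : ρ)
    (ho : ∀ (x : Pos k n → Fin m) (y : Pos k n → Fin m → Q),
      exec (wneg C y) p o < exec (wpos x) p o)
    (M d r : ℕ) (hM : 1 ≤ M) (hT : p.length ≤ M ^ r) (hd : 1 ≤ d) (hr : 1 ≤ r)
    (hd' : p.length * (m ^ (k * n) * (m * Fintype.card Q) ^ (k * n)) *
      Fintype.card Q ^ (k * n) < 2 ^ d)
    (hn : (4 * k ^ 2 * r + 1) * 4096 ^ r ≤ (pairs k n).card) :
    (m ^ k) ^ r ≤ (4 * M) ^ (r + r) * Fintype.card ρ ^ r * 2 ^ (k * n) *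
      (k * n * (r * Fintype.card Q ^ (2 * (k * n) + 1) * d)) ^ (k * r) := by
  classical
  have hN : Fintype.card (Pos k n) = k * n := by
    simp [Pos, Fintype.card_prod]
  obtain ⟨Yc, Err, hclean, hchain, hzero, hevo, hfin, herr⟩ :=
    evol p hp d (wpos : (Pos k n → Fin m) → Arc k n m → Bool) (wneg C)
  rw [hN] at herr
  -- all colourings are covered at the end
  have hall : ∀ (x : Pos k n → Fin m) (y : Pos k n → Fin m → Q),
      y ∈ Yc p.length o x ∨ y ∈ Err := by
    intro x y
    exact hfin o x y (ho x y)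
  have x₀ : Pos k n → Fin m := fun _ => ⟨0, hm⟩
  have hpairs : (pairs k n).Nonempty := by
    rw [← card_pos]
    refine lt_of_lt_of_le ?_ hn
    positivity
  -- the space of colourings is nonempty
  obtain ⟨e₀, he₀⟩ := hpairs
  obtain ⟨z₀, hz₀⟩ := hC.crit e₀ he₀
  have hpos : 0 < p.length := by
    rcases Nat.eq_zero_or_pos p.length with h0 | h0
    · exfalso
      rw [List.length_eq_zero_iff] at h0
      subst h0
      have h1 := ho x₀ (fun v _ => z₀ v)
      simp [exec] at h1
    · exact h0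
  have hcard : 0 < Fintype.card (Pos k n → Fin m → Q) :=
    Fintype.card_pos_iff.2 ⟨fun v _ => z₀ v⟩
  have hErr : Fintype.card Q ^ (k * n) * Err.card < Fintype.card (Pos k n → Fin m → Q) := by
    by_contra hcon
    rw [not_lt] at hcon
    have h1 : 2 ^ d * Fintype.card (Pos k n → Fin m → Q) ≤
        (p.length * (m ^ (k * n) * (m * Fintype.card Q) ^ (k * n)) *
          Fintype.card Q ^ (k * n)) * Fintype.card (Pos k n → Fin m → Q) := by
      calc 2 ^ d * Fintype.card (Pos k n → Fin m → Q)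
          ≤ 2 ^ d * (Fintype.card Q ^ (k * n) * Err.card) := Nat.mul_le_mul_left _ hcon
        _ = Fintype.card Q ^ (k * n) * (2 ^ d * Err.card) := by ring
        _ ≤ Fintype.card Q ^ (k * n) * (p.length * (m ^ (k * n) *
            ((m * Fintype.card Q) ^ (k * n) * Fintype.card (Pos k n → Fin m → Q)))) :=
            Nat.mul_le_mul_left _ herr
        _ = _ := by ring
    exact absurd (Nat.le_of_mul_le_mul_right h1 hcard) (not_le.2 hd')
  have hD : 1 ≤ 2 * k ^ 2 * r := by
    have : 0 < 2 * k ^ 2 * r := by positivity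
    omega
  -- what one choice yields
  have hx : ∀ x : Pos k n → Fin m, ∃ (ts : List ℕ) (regs : Fin r → ρ) (U : Finset (Pos k n)),
      ts ∈ G M r r 0 ∧ U.card = k * r ∧
      ∀ v ∈ U, ∃ j : Fin r, Sens (Yc (ts.getD j 0) (regs j) x) x v := by
    intro x
    have htop := fam_top C hC Yc Err x p.length o (hall x) hErr
    obtain ⟨L, hL1, hL2, hL3, hL4⟩ := process (fam_hist C p.length Yc hevo x) M
      (2 * k ^ 2 * r) hM hD r r 0 p.length ∅ (pairs k n)
      (mem_image.2 ⟨o, mem_univ _, htop⟩) hpos (by simpa using hT) le_rfl (by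
        intro a ha
        rw [mem_image] at ha
        obtain ⟨i, _, rfl⟩ := ha
        have : Zs C Yc x 0 i = ∅ := by
          ext e
          simp [Zs, hzero]
        rw [this, empty_sdiff, card_empty]
        omega) (by
        rw [sdiff_empty]
        refine le_trans (le_of_eq ?_) hn
        have h32 : (32 : ℕ) ^ r * 128 ^ r = 4096 ^ r := by
          rw [← mul_pow]; norm_num
        rw [mul_assoc, h32]
        ring)
    have hlen : L.length = r := by
      have := length_G hL1
      simpa using this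
    have hpriv := K_priv _ _ hL3
    rw [sdiff_empty, sdiff_empty] at hL4
    have hreg : ∀ j : Fin r, ∃ i : ρ, Zs C Yc x ((L.map Prod.fst).getD j 0) i =
        (L.map Prod.snd)[j.1]'(by rw [List.length_map, hlen]; exact j.2) := by
      intro j
      have hj : j.1 < L.length := by rw [hlen]; exact j.2
      have hmem : L[j.1] ∈ L := List.getElem_mem _
      obtain ⟨_, hb⟩ := hL2 _ hmem
      rw [mem_image] at hb
      obtain ⟨i, _, hi⟩ := hb
      refine ⟨i, ?_⟩
      rw [List.getD_eq_getElem _ _ (by rw [List.length_map]; exact hj)]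
      simp only [List.getElem_map]
      exact hi
    choose regs hregs using hreg
    have hsub : ∀ Z ∈ L.map Prod.snd, Z ⊆ pairs k n := by
      intro Z hZ
      rw [List.mem_map] at hZ
      obtain ⟨q, hq, rfl⟩ := hZ
      obtain ⟨_, hb⟩ := hL2 q hq
      rw [mem_image] at hb
      obtain ⟨i, _, hi⟩ := hb
      rw [← hi]
      exact filter_subset _ _
    have hunsub : un (L.map Prod.snd) ⊆ pairs k n := by
      intro e he
      rw [Pool.Agent.H564R3.PW.I_mem_un] at he
      obtain ⟨Z, hZ, he⟩ := he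
      exact hsub Z hZ he
    let Xs : Finset (Pos k n) := univ.filter fun v =>
      ∃ j : Fin r, Sens (Yc ((L.map Prod.fst).getD j 0) (regs j) x) x v
    have hXs : k * r ≤ Xs.card := by
      have := iso (L.map Prod.snd) hsub (2 * k ^ 2 * r) (by simp [hlen]) hpriv (by
        rw [card_sdiff_of_subset hunsub]
        have h1 : 2 * k ^ 2 * r * 2 ≤ (pairs k n).card := by
          refine le_trans ?_ hn
          have h2 : 1 ≤ (4096 : ℕ) ^ r := Nat.one_le_pow _ _ (by norm_num)
          nlinarith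
        omega) Xs (by
        intro Z hZ v hv
        obtain ⟨j, hj, rfl⟩ := List.getElem_of_mem hZ
        have hj' : j < r := by rw [List.length_map, hlen] at hj; exact hj
        simp only [Xs, mem_filter, mem_univ, true_and]
        refine ⟨⟨j, hj'⟩, fam_bd C hC Yc x _ _ v ?_⟩
        rw [hregs ⟨j, hj'⟩]
        exact hv)
      simpa [hlen] using this
    obtain ⟨U, hU1, hU2⟩ := exists_subset_card_eq hXs
    refine ⟨L.map Prod.fst, regs, U, hL1, hU2, fun v hv => ?_⟩
    have := hU1 hv
    simpa only [Xs, mem_filter, mem_univ, true_and] using this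
  choose ts regs U hts hU hsens using hx
  -- counting
  let Codes : Finset (List ℕ × (Fin r → ρ) × Finset (Pos k n)) :=
    G M r r 0 ×ˢ (univ : Finset (Fin r → ρ)) ×ˢ powersetCard (k * r) (univ : Finset (Pos k n))
  let c : ℕ := k * n * (r * Fintype.card Q ^ (2 * (k * n) + 1) * d)
  have hfib : ∀ a ∈ Codes, ((univ : Finset (Pos k n → Fin m)).filter
      (fun x => (ts x, regs x, U x) = a)).card * m ^ (k * r) ≤ m ^ (k * n) * c ^ (k * r) := by
    rintro ⟨t, g, V⟩ ha
    simp only [Codes, mem_product, mem_univ, true_and, mem_powersetCard, subset_univ] at ha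
    have h1 := count_bad d hd (fun (j : Fin r) x => Yc (t.getD j 0) (g j) x)
      (fun j x => hclean _ _ _) (fun j x x' => hchain _ _ _ _) V
    rw [hN, Fintype.card_fin, ha.2] at h1
    refine le_trans (Nat.mul_le_mul_right _ (card_le_card ?_)) h1
    intro x hx
    rw [mem_filter, Prod.mk.injEq, Prod.mk.injEq] at hx
    obtain ⟨_, rfl, rfl, rfl⟩ := hx
    simp only [mem_filter, mem_univ, true_and]
    exact hsens x
  have hsum : m ^ (k * n) = ∑ a ∈ Codes, ((univ : Finset (Pos k n → Fin m)).filter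
      (fun x => (ts x, regs x, U x) = a)).card := by
    rw [← card_eq_sum_card_fiberwise]
    · rw [card_univ, Fintype.card_fun, Fintype.card_fin, hN]
    · intro x _
      simp only [Codes, coe_product, Set.mem_prod, mem_coe, mem_univ, mem_powersetCard,
        subset_univ, true_and]
      exact ⟨hts x, hU x⟩
  have hbound : m ^ (k * n) * m ^ (k * r) ≤ Codes.card * (m ^ (k * n) * c ^ (k * r)) := by
    rw [hsum, sum_mul, ← hsum, ← smul_eq_mul]
    exact sum_le_card_nsmul _ _ _ hfib
  have hcodes : Codes.card ≤ (4 * M) ^ (r + r) * Fintype.card ρ ^ r * 2 ^ (k * n) := by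
    simp only [Codes, card_product, card_powersetCard, card_univ, Fintype.card_fun,
      Fintype.card_fin, hN]
    rw [← mul_assoc]
    refine Nat.mul_le_mul (Nat.mul_le_mul_right _ (card_G M r r 0 hM)) ?_
    exact Nat.choose_le_two_pow _ _
  have hmpos : 0 < m ^ (k * n) := Nat.pow_pos hm
  have h2 : m ^ (k * n) * m ^ (k * r) ≤ m ^ (k * n) *
      ((4 * M) ^ (r + r) * Fintype.card ρ ^ r * 2 ^ (k * n) * c ^ (k * r)) := by
    refine hbound.trans ?_
    calc Codes.card * (m ^ (k * n) * c ^ (k * r))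
        = m ^ (k * n) * (Codes.card * c ^ (k * r)) := by ring
      _ ≤ _ := Nat.mul_le_mul_left _ (Nat.mul_le_mul_right _ hcodes)
  rw [← pow_mul]
  exact Nat.le_of_mul_le_mul_left h2 hmpos

end Pool.Agent.H564R3.MR

namespace Pool.Agent.H564R3.CP

open Pool.Agent.H564R3.PW (Pos pairs Arc var)
open Pool.Agent.H564R3.MR (Csp wpos wneg)

theorem lower_sep (k g : ℕ) (hk : 1 ≤ k) (hg : 1 ≤ g) : ∃ n : ℕ, 2 ≤ n ∧
    ∀ (Q : Type) [Fintype Q] [DecidableEq Q] (C : Pos k n × Pos k n → Q → Q → Bool), Csp C →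
      ∃ m₀ : ℕ, ∀ m ≥ m₀, ∀ (ρ : Type) [Fintype ρ] [DecidableEq ρ]
        (p : List (MR.Instr (Arc k n m) ρ)) (o : ρ), MR.IsMono p →
          (∀ (x : Pos k n → Fin m) (y : Pos k n → Fin m → Q),
            MR.exec (wneg C y) p o < MR.exec (wpos x) p o) →
          p.length ≤ m ^ g → m ^ (k * g) ≤ m * Fintype.card ρ ^ g := by
  set r := g * (2 * g + 1) with hr
  have hr1 : 1 ≤ r := by
    have : 0 < g * (2 * g + 1) := by positivity
    omega
  set n₀ := 5 * r * 4096 ^ r + 2 with hn₀
  refine ⟨n₀, by omega, fun Q _ _ C hC => ?_⟩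
  have hcardp : (4 * k ^ 2 * r + 1) * 4096 ^ r ≤ (pairs k n₀).card := by
    refine le_trans ?_ (Pool.Agent.H564R3.PW.card_pairs k n₀)
    have h1 : 5 * r * 4096 ^ r ≤ n₀ - 1 := by omega
    have h3 : 4 * k ^ 2 * r + 1 ≤ k ^ 2 * (5 * r) := by
      have h4 : 1 ≤ k ^ 2 * r := Nat.mul_pos (Nat.pow_pos (by omega)) (by omega)
      nlinarith
    calc (4 * k ^ 2 * r + 1) * 4096 ^ r ≤ k ^ 2 * (5 * r) * 4096 ^ r :=
          Nat.mul_le_mul_right _ h3
      _ = k ^ 2 * (5 * r * 4096 ^ r) := by ring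
      _ ≤ k ^ 2 * (n₀ - 1) := Nat.mul_le_mul_left _ h1
  obtain ⟨m₁, hm₁⟩ := MR.num_real k g (k * n₀) (Fintype.card Q) hg
  refine ⟨m₁ + 1, fun m hm ρ _ _ p o hp ho hT => ?_⟩
  have hpos : 1 ≤ p.length := by
    rcases p with _ | ⟨a, l⟩
    · exfalso
      have h0 : 0 < (pairs k n₀).card := lt_of_lt_of_le (by positivity) hcardp
      obtain ⟨e, he⟩ := Finset.card_pos.1 h0
      obtain ⟨z, _⟩ := hC.crit e he
      have h1 := ho (fun _ => ⟨0, by omega⟩) (fun v _ => z v)
      simp [MR.exec] at h1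
    · simp
  refine hm₁ m (by omega) (Fintype.card ρ) p.length hpos hT ?_
  intro M d hM hTM hd hd'
  exact MR.main_sep C hC hk (by omega) p hp o ho M d r hM hTM hd hr1 hd' hcardp

end Pool.Agent.H564R3.CP
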