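import Pool.Agent.H564R3.CP.Defs

/-! Stubs (statements only): every theorem goes to its own file, see `h564e_tasks`. -/

set_option autoImplicit false

namespace Pool.Agent.H564R3.CP

open Pool.Agent.H564R3.PW (Pos pairs Arc var)
open Pool.Agent.H564R3.MR (Csp wpos wneg)

/-! ### A (Sep.lean): helper564 -/
theorem lower_sep (k g : ℕ) (hk : 1 ≤ k) (hg : 1 ≤ g) : ∃ n : ℕ, 2 ≤ n ∧
    ∀ (Q : Type) [Fintype Q] [DecidableEq Q] (C : Pos k n × Pos k n → Q → Q → Bool), Csp C →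
      ∃ m₀ : ℕ, ∀ m ≥ m₀, ∀ (ρ : Type) [Fintype ρ] [DecidableEq ρ]
        (p : List (MR.Instr (Arc k n m) ρ)) (o : ρ), MR.IsMono p →
          (∀ (x : Pos k n → Fin m) (y : Pos k n → Fin m → Q),
            MR.exec (wneg C y) p o < MR.exec (wpos x) p o) →
          p.length ≤ m ^ g → m ^ (k * g) ≤ m * Fintype.card ρ ^ g := by
  sorry

/-! ### B (Interp.lean) -/
theorem interp {k n m : ℕ} {Q ρ : Type} [Fintype Q] [DecidableEq Q] [DecidableEq ρ]
    (C : Pos k n × Pos k n → Q → Q → Bool)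
    (p : List (Step (XVar k n m) (YVar k n m Q) ρ)) (o : ρ)
    (h : Refutes {c | Formula C c} p o) :
    ∃ p' : List (MR.Instr (Arc k n m) (Option ρ)), MR.IsMono p' ∧
      (∀ (x : Pos k n → Fin m) (y : Pos k n → Fin m → Q),
        MR.exec (wneg C y) p' (some o) < MR.exec (wpos x) p' (some o)) ∧
      p'.length ≤ 2 * p.length := by
  sorry

/-! ### C (Der.lean) -/
section Der

variable {V : Type} [DecidableEq V]

/-- at most `t` resolution steps derive all clauses of `K'` from `K` -/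
def Der (K : Set (Clause V)) (t : ℕ) (K' : Set (Clause V)) : Prop :=
  ∃ L : List (Clause V), L.length ≤ t ∧ ResChain K L ∧ K' ⊆ K ∪ {c | c ∈ L}

theorem der_zero {K K' : Set (Clause V)} (h : K' ⊆ K) : Der K 0 K' := by
  sorry

theorem der_one {K : Set (Clause V)} {c : Clause V} (h : ResStep K c) : Der K 1 {c} := by
  sorry

theorem der_mono {K K₂ K' K'' : Set (Clause V)} {t t₂ : ℕ} (h : Der K t K') (h₁ : K ⊆ K₂)
    (h₂ : t ≤ t₂) (h₃ : K'' ⊆ K') : Der K₂ t₂ K'' := by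
  sorry

theorem der_trans {K K' K'' : Set (Clause V)} {s t : ℕ} (h : Der K s K')
    (h' : Der (K ∪ K') t K'') : Der K (s + t) (K' ∪ K'') := by
  sorry

theorem der_family {ι : Type} (I : Finset ι) {K : Set (Clause V)} {t : ℕ}
    (f : ι → Set (Clause V)) (h : ∀ i ∈ I, Der K t (f i)) :
    Der K (I.card * t) {c | ∃ i ∈ I, c ∈ f i} := by
  sorry

/-- resolving a wide clause `⋁ y b` away -/
theorem der_wide {B : Type} [Fintype B] [DecidableEq B] [Nonempty B] {K : Set (Clause V)} (y : B → V)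
    (D : Clause V) (hW : (Finset.univ.image fun b => (y b, true)) ∈ K)
    (h : ∀ b : B, ∃ A ∈ K, A ⊆ insert (y b, false) D) : Der K (Fintype.card B) {D} := by
  sorry

end Der

/-! ### D (Elim.lean): uses C -/
section Elim

variable {k n m : ℕ} {Q : Type} [Fintype Q] [DecidableEq Q]

theorem elim_pos [Nonempty Q] (hm : 1 ≤ m) (C : Pos k n × Pos k n → Q → Q → Bool)
    {K : Set (Clause (Var k n m Q))}
    (hK : ∀ c, Formula C c → c ∈ K) (v : Pos k n) (D : Clause (Var k n m Q))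
    (h : ∀ (a : Fin m) (c : Q), ∃ A ∈ K, A ⊆ insert (col v a c, false)
      (insert (cho v a, false) D)) :
    Der K (m * (Fintype.card Q + 1)) {D} := by
  sorry

/-- the negations of the choices `a` and of the colours `c` in layer `l` -/
def lay (l : Fin n) (a : Fin k → Fin m) (c : Fin k → Q) : Clause (Var k n m Q) :=
  (Finset.univ.image fun j => (cho (j, l) (a j), false)) ∪
    (Finset.univ.image fun j => (col (j, l) (a j) (c j), false))

theorem elim_layer [Nonempty Q] (hk : 1 ≤ k) (hm : 1 ≤ m)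
    (C : Pos k n × Pos k n → Q → Q → Bool) {K : Set (Clause (Var k n m Q))}
    (hK : ∀ c, Formula C c → c ∈ K) (l : Fin n) (D : Clause (Var k n m Q))
    (h : ∀ (a : Fin k → Fin m) (c : Fin k → Q), ∃ A ∈ K, A ⊆ lay l a c ∪ D) :
    Der K (k * ((m * Fintype.card Q) ^ k * (m * (Fintype.card Q + 1)))) {D} := by
  sorry

end Elim

/-! ### E (DP.lean): uses C, D -/
theorem dp {k n m : ℕ} {Q : Type} [Fintype Q] [DecidableEq Q] [Nonempty Q] (hk : 1 ≤ k)
    (hm : 1 ≤ m) (hn : 1 ≤ n)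
    (C : Pos k n × Pos k n → Q → Q → Bool)
    (hC : ∀ z : Pos k n → Q, ∃ e ∈ pairs k n, C e (z e.1) (z e.2) = false) :
    Der {c : Clause (Var k n m Q) | Formula C c}
      ((n + 1) * (((m * Fintype.card Q) ^ k + 1) * ((m * Fintype.card Q) ^ k + 1 +
        k * ((m * Fintype.card Q) ^ k * (m * (Fintype.card Q + 1)))))) {∅} := by
  sorry

/-! ### F (Num.lean): helper564 -/
theorem num_cp (c g n K : ℕ) (hn : 1 ≤ n) : ∃ m₀ : ℕ, ∀ m ≥ m₀, ∀ N k : ℕ, k = 3 * c + 3 →
    N = (k * n * m) ^ 2 + k * n * m + k * n * m * K →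
      (n + 1) * (((m * K) ^ k + 1) * ((m * K) ^ k + 1 + k * ((m * K) ^ k * (m * (K + 1))))) ≤
        N ^ (3 * c + 4) ∧
      (∀ T : ℕ, T ≤ N ^ g → 2 * T ≤ m ^ (3 * g + 1)) ∧
      (∀ S : ℕ, m ^ (k * (3 * g + 1)) ≤ m * (S + 1) ^ (3 * g + 1) → N ^ c < S) := by
  sorry

end Pool.Agent.H564R3.CP
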